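import Mathlib

open Classical

namespace Pool.Agent.Results.MP_35fdad_lc.NoLinearRatDegree

/-- A strict linear order on `Option A`; `none` means being unmatched. `better a b` means that `a` is
strictly preferred to `b`. -/
structure Pref (A : Type) where
  better : Option A → Option A → Prop
  irrefl : ∀ a, ¬ better a a
  trans : ∀ a b c, better a b → better b c → better a c
  total : ∀ a b, a ≠ b → better a b ∨ better b a

/-- The set of potential partners of an agent of the two-sided market `M`, `W`. -/
abbrev Opp (M W : Type) : M ⊕ W → Type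
  | Sum.inl _ => W
  | Sum.inr _ => M

/-- A profile of reports: one order for each agent. -/
abbrev Profile (M W : Type) : Type := (a : M ⊕ W) → Pref (Opp M W a)

/-- A matching of `M` and `W`. -/
structure Matching (M W : Type) where
  ofM : M → Option W
  ofW : W → Option M
  consistent : ∀ m w, ofM m = some w ↔ ofW w = some m

/-- The partner of an agent (`none` if it is unmatched). -/
def Matching.partner {M W : Type} (μ : Matching M W) : (a : M ⊕ W) → Option (Opp M W a)
  | Sum.inl m => μ.ofM m
  | Sum.inr w => μ.ofW w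

/-- Stability: individual rationality and no blocking pair. -/
def Stable {M W : Type} (P : Profile M W) (μ : Matching M W) : Prop :=
  (∀ a : M ⊕ W, ¬ (P a).better none (μ.partner a)) ∧
  ∀ (m : M) (w : W), ¬ ((P (Sum.inl m)).better (some w) (μ.ofM m) ∧
    (P (Sum.inr w)).better (some m) (μ.ofW w))

/-- A mechanism maps each profile to a matching. -/
abbrev Mechanism (M W : Type) : Type := Profile M W → Matching M W

/-- A stable matching mechanism. -/
def IsStableMechanism {M W : Type} (F : Mechanism M W) : Prop := ∀ P, Stable P (F P)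

/-- The report `r` of agent `i` is safe: `P i` is the true order of `i`, the reports of the agents in
`K` are those of `P`, and for all reports of the other agents (the profile `Q` agrees with `P` at `i`
and on `K`) the agent weakly prefers the result of reporting `r` to the result of telling the
truth. -/
def Safe {M W : Type} (F : Mechanism M W) (i : M ⊕ W)
    (K : Finset (M ⊕ W)) (P : Profile M W) (r : Pref (Opp M W i)) : Prop :=
  ∀ Q : Profile M W, Q i = P i → (∀ j ∈ K, Q j = P j) →
    ¬ (P i).better ((F Q).partner i) ((F (Function.update Q i r)).partner i)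

/-- The report `r` of agent `i` is profitable: for some reports of the other agents the agent
strictly prefers the result of reporting `r` to the result of telling the truth. -/
def Profitable {M W : Type} (F : Mechanism M W) (i : M ⊕ W)
    (K : Finset (M ⊕ W)) (P : Profile M W) (r : Pref (Opp M W i)) : Prop :=
  ∃ Q : Profile M W, Q i = P i ∧ (∀ j ∈ K, Q j = P j) ∧
    (P i).better ((F (Function.update Q i r)).partner i) ((F Q).partner i)

/-- `F` is `k`-known-agents safely manipulable. -/
def SafelyManipulable {M W : Type} (F : Mechanism M W) (k : ℕ) : Prop :=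
  ∃ (i : M ⊕ W) (K : Finset (M ⊕ W)) (P : Profile M W) (r : Pref (Opp M W i)),
    i ∉ K ∧ K.card = k ∧ r ≠ P i ∧ Safe F i K P r ∧ Profitable F i K P r

/-- The RAT-degree: the least `k < n` such that `F` is `k`-known-agents safely manipulable, and `n`
if there is none, where `n` is the number of agents. -/
noncomputable def ratDegree {M W : Type} (F : Mechanism M W) : ℕ :=
  sInf ({k | k < Nat.card M + Nat.card W ∧ SafelyManipulable F k} ∪ {Nat.card M + Nat.card W})

/-- The order given by an injective ranking with values in `ℕ`: smaller rank is better. -/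
def ofRank {A : Type} (f : Option A → ℕ) (hf : Function.Injective f) : Pref A where
  better a b := f a < f b
  irrefl _ := lt_irrefl _
  trans _ _ _ h1 h2 := lt_trans h1 h2
  total _ _ h := lt_or_gt_of_ne (fun e => h (hf e))

section Ranks

variable {A : Type} [Finite A]

/-- An auxiliary injection into the natural numbers. -/
noncomputable def enc (A : Type) [Finite A] : A → ℕ := (exists_injective_nat A).choose

lemma enc_injective (A : Type) [Finite A] : Function.Injective (enc A) :=
  (exists_injective_nat A).choose_spec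

/-- Ranking `a`, then `b`, then being unmatched, then all others. -/
noncomputable def rankTwo (a b : A) : Option A → ℕ
  | none => 2
  | some x => if x = a then 0 else if x = b then 1 else 3 + enc A x

/-- Ranking `a`, then being unmatched, then `b`, then all others. -/
noncomputable def rankOne (a b : A) : Option A → ℕ
  | none => 1
  | some x => if x = a then 0 else if x = b then 2 else 3 + enc A x

lemma rankTwo_injective {a b : A} : Function.Injective (rankTwo a b) := by
  intro x y h
  rcases x with _ | x <;> rcases y with _ | y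
  · rfl
  · simp only [rankTwo] at h
    split_ifs at h <;> omega
  · simp only [rankTwo] at h
    split_ifs at h <;> omega
  · simp only [rankTwo] at h
    split_ifs at h with h1 h2 h3 h4 h5 h6 h7 h8 <;> first
      | omega
      | (subst_vars; rfl)
      | (have h9 : enc A x = enc A y := by omega
         rw [enc_injective A h9])

lemma rankOne_injective {a b : A} : Function.Injective (rankOne a b) := by
  intro x y h
  rcases x with _ | x <;> rcases y with _ | y
  · rfl
  · simp only [rankOne] at h
    split_ifs at h <;> omega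
  · simp only [rankOne] at h
    split_ifs at h <;> omega
  · simp only [rankOne] at h
    split_ifs at h with h1 h2 h3 h4 h5 h6 h7 h8 <;> first
      | omega
      | (subst_vars; rfl)
      | (have h9 : enc A x = enc A y := by omega
         rw [enc_injective A h9])

/-- The order `a`, `b`, unmatched, others. -/
noncomputable def two (a b : A) : Pref A := ofRank (rankTwo a b) rankTwo_injective

/-- The order `a`, unmatched, `b`, others. -/
noncomputable def one (a b : A) : Pref A := ofRank (rankOne a b) rankOne_injective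

lemma two_better (a b : A) (x y : Option A) :
    (two a b).better x y ↔ rankTwo a b x < rankTwo a b y := Iff.rfl

lemma one_better (a b : A) (x y : Option A) :
    (one a b).better x y ↔ rankOne a b x < rankOne a b y := Iff.rfl

lemma rankTwo_first (a b : A) : rankTwo a b (some a) = 0 := by simp [rankTwo]
lemma rankTwo_second {a b : A} (h : a ≠ b) : rankTwo a b (some b) = 1 := by
  simp [rankTwo, h.symm]
lemma rankTwo_none (a b : A) : rankTwo a b none = 2 := rfl
lemma rankOne_first (a b : A) : rankOne a b (some a) = 0 := by simp [rankOne]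
lemma rankOne_none (a b : A) : rankOne a b none = 1 := rfl

/-- Only the first two partners are better than being unmatched. -/
lemma eq_of_rankTwo_lt {a b : A} {x : Option A} (h : ¬ 2 < rankTwo a b x) :
    x = some a ∨ x = some b ∨ x = none := by
  rcases x with _ | x
  · simp
  · simp only [rankTwo] at h
    split_ifs at h with h1 h2
    · left; rw [h1]
    · right; left; rw [h2]
    · omega

lemma eq_of_rankOne_lt {a b : A} {x : Option A} (h : ¬ 1 < rankOne a b x) :
    x = some a ∨ x = none := by
  rcases x with _ | x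
  · simp
  · simp only [rankOne] at h
    split_ifs at h with h1 h2
    · left; rw [h1]
    · omega
    · omega

end Ranks

section Market

variable {M W : Type} [Finite M] [Finite W]

/-- In the small market `m₁` is matched to `w₁` or `w₂`. -/
lemma truthful {m₁ m₂ : M} {w₁ w₂ : W} (hw : w₁ ≠ w₂)
    {Q : Profile M W} {μ : Matching M W} (hμ : Stable Q μ)
    (h1 : Q (Sum.inl m₁) = two (A := W) w₁ w₂) (h4 : Q (Sum.inr w₂) = two (A := M) m₁ m₂) :
    μ.ofM m₁ = some w₁ ∨ μ.ofM m₁ = some w₂ := by
  have hir := hμ.1 (Sum.inl m₁)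
  rw [h1] at hir
  rcases eq_of_rankTwo_lt (a := w₁) (b := w₂) (x := μ.ofM m₁) hir with h | h | h
  · exact Or.inl h
  · exact Or.inr h
  · exfalso
    apply hμ.2 m₁ w₂
    constructor
    · rw [h1, h]
      change rankTwo w₁ w₂ (some w₂) < rankTwo w₁ w₂ none
      rw [rankTwo_second hw, rankTwo_none]; omega
    · rw [h4]
      change rankTwo m₁ m₂ (some m₁) < rankTwo m₁ m₂ (μ.ofW w₂)
      rw [rankTwo_first]
      rcases Nat.eq_zero_or_pos (rankTwo m₁ m₂ (μ.ofW w₂)) with h0 | h0
      · have : μ.ofW w₂ = some m₁ :=
          rankTwo_injective (a := m₁) (b := m₂) (by rw [h0, rankTwo_first])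
        rw [← μ.consistent, h] at this
        cases this
      · exact h0

/-- If `w₁` truncates after `m₂` it is matched to `m₂`. -/
lemma truncW {m₁ m₂ : M} {w₁ w₂ : W} (hm : m₁ ≠ m₂) (hw : w₁ ≠ w₂)
    {Q : Profile M W} {μ : Matching M W} (hμ : Stable Q μ)
    (h1 : Q (Sum.inl m₁) = two (A := W) w₁ w₂) (h2 : Q (Sum.inl m₂) = two (A := W) w₂ w₁)
    (h3 : Q (Sum.inr w₁) = one (A := M) m₂ m₁) (h4 : Q (Sum.inr w₂) = two (A := M) m₁ m₂) :
    μ.ofW w₁ = some m₂ := by
  have hir := hμ.1 (Sum.inr w₁)
  rw [h3] at hir
  rcases eq_of_rankOne_lt (a := m₂) (b := m₁) (x := μ.ofW w₁) hir with h | h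
  · exact h
  · exfalso
    have hun : ∀ m, μ.ofM m ≠ some w₁ := by
      intro m hm'
      rw [μ.consistent, h] at hm'
      cases hm'
    have hb2 := hμ.2 m₂ w₁
    rw [h2, h3, h] at hb2
    have hm2 : μ.ofM m₂ = some w₂ := by
      by_contra hne
      apply hb2
      constructor
      · change rankTwo w₂ w₁ (some w₁) < rankTwo w₂ w₁ (μ.ofM m₂)
        rw [rankTwo_second hw.symm]
        by_contra hlt
        rcases eq_of_rankTwo_lt (a := w₂) (b := w₁) (x := μ.ofM m₂) (by omega) with h5 | h5 | h5
        · exact hne h5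
        · exact hun _ h5
        · rw [h5, rankTwo_none] at hlt; omega
      · change rankOne m₂ m₁ (some m₂) < rankOne m₂ m₁ none
        rw [rankOne_first, rankOne_none]; omega
    have hw2 : μ.ofW w₂ = some m₂ := (μ.consistent _ _).mp hm2
    apply hμ.2 m₁ w₂
    rw [h1, h4, hw2]
    constructor
    · change rankTwo w₁ w₂ (some w₂) < rankTwo w₁ w₂ (μ.ofM m₁)
      rw [rankTwo_second hw]
      by_contra hlt
      rcases eq_of_rankTwo_lt (a := w₁) (b := w₂) (x := μ.ofM m₁) (by omega) with h5 | h5 | h5
      · exact hun _ h5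
      · rw [μ.consistent, hw2] at h5
        exact hm (Option.some.inj h5).symm
      · rw [h5, rankTwo_none] at hlt; omega
    · change rankTwo m₁ m₂ (some m₁) < rankTwo m₁ m₂ (some m₂)
      rw [rankTwo_first, rankTwo_second hm]; omega

/-- If `m₁` truncates after `w₁` it is matched to `w₁`. -/
lemma truncM {m₁ m₂ : M} {w₁ w₂ : W} (hm : m₁ ≠ m₂) (hw : w₁ ≠ w₂)
    {Q : Profile M W} {μ : Matching M W} (hμ : Stable Q μ)
    (h1 : Q (Sum.inl m₁) = one (A := W) w₁ w₂) (h2 : Q (Sum.inl m₂) = two (A := W) w₂ w₁)
    (h3 : Q (Sum.inr w₁) = two (A := M) m₂ m₁) (h4 : Q (Sum.inr w₂) = two (A := M) m₁ m₂) :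
    μ.ofM m₁ = some w₁ := by
  have hir := hμ.1 (Sum.inl m₁)
  rw [h1] at hir
  rcases eq_of_rankOne_lt (a := w₁) (b := w₂) (x := μ.ofM m₁) hir with h | h
  · exact h
  · exfalso
    have hun : ∀ w, μ.ofW w ≠ some m₁ := by
      intro w hw'
      rw [← μ.consistent, h] at hw'
      cases hw'
    have hb := hμ.2 m₁ w₁
    rw [h1, h3, h] at hb
    have hw1 : μ.ofW w₁ = some m₂ := by
      by_contra hne
      apply hb
      constructor
      · change rankOne w₁ w₂ (some w₁) < rankOne w₁ w₂ none
        rw [rankOne_first, rankOne_none]; omega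
      · change rankTwo m₂ m₁ (some m₁) < rankTwo m₂ m₁ (μ.ofW w₁)
        rw [rankTwo_second hm.symm]
        by_contra hlt
        rcases eq_of_rankTwo_lt (a := m₂) (b := m₁) (x := μ.ofW w₁) (by omega) with h5 | h5 | h5
        · exact hne h5
        · exact hun _ h5
        · rw [h5, rankTwo_none] at hlt; omega
    have hm2 : μ.ofM m₂ = some w₁ := (μ.consistent _ _).mpr hw1
    apply hμ.2 m₂ w₂
    rw [h2, h4, hm2]
    constructor
    · change rankTwo w₂ w₁ (some w₂) < rankTwo w₂ w₁ (some w₁)
      rw [rankTwo_first, rankTwo_second hw.symm]; omega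
    · change rankTwo m₁ m₂ (some m₂) < rankTwo m₁ m₂ (μ.ofW w₂)
      rw [rankTwo_second hm]
      by_contra hlt
      rcases eq_of_rankTwo_lt (a := m₁) (b := m₂) (x := μ.ofW w₂) (by omega) with h5 | h5 | h5
      · exact hun _ h5
      · rw [← μ.consistent, hm2] at h5
        exact hw (Option.some.inj h5)
      · rw [h5, rankTwo_none] at hlt; omega

/-- The order of the agents in the small market; all others report some fixed order. -/
noncomputable def baseProfile (m₁ m₂ : M) (w₁ w₂ : W) : Profile M W
  | Sum.inl m => if m = m₁ then two (A := W) w₁ w₂ else two (A := W) w₂ w₁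
  | Sum.inr w => if w = w₁ then two (A := M) m₂ m₁ else two (A := M) m₁ m₂

lemma one_ne_two {A : Type} [Finite A] {a b : A} (h : a ≠ b) :
    one a b ≠ two a b := by
  intro e
  have h1 : (two a b).better (some b) none := by
    rw [two_better, rankTwo_second h, rankTwo_none]; omega
  rw [← e, one_better, rankOne_none] at h1
  simp [rankOne, h.symm] at h1

/-- Every stable matching mechanism with two agents on each side is `3`-known-agents safely
manipulable. -/
lemma manipulable {m₁ m₂ : M} {w₁ w₂ : W} (hm : m₁ ≠ m₂) (hw : w₁ ≠ w₂)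
    (F : Mechanism M W) (hF : IsStableMechanism F) : SafelyManipulable F 3 := by
  set P : Profile M W := baseProfile m₁ m₂ w₁ w₂ with hP
  have p1 : P (Sum.inl m₁) = two (A := W) w₁ w₂ := by simp [hP, baseProfile]
  have p2 : P (Sum.inl m₂) = two (A := W) w₂ w₁ := by simp [hP, baseProfile, hm.symm]
  have p3 : P (Sum.inr w₁) = two (A := M) m₂ m₁ := by simp [hP, baseProfile]
  have p4 : P (Sum.inr w₂) = two (A := M) m₁ m₂ := by simp [hP, baseProfile, hw.symm]
  rcases truthful hw (hF P) p1 p4 with h | h
  · -- `w₁` manipulates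
    have hW : (F P).ofW w₁ = some m₁ := ((F P).consistent _ _).mp h
    have key : ∀ Q : Profile M W, (∀ j ∈ ({Sum.inl m₁, Sum.inl m₂, Sum.inr w₂} : Finset (M ⊕ W)),
        Q j = P j) →
        (F (Function.update Q (Sum.inr w₁) (one (A := M) m₂ m₁))).ofW w₁ = some m₂ := by
      intro Q hQ
      apply truncW hm hw (hF _)
      · rw [Function.update_of_ne (by simp), hQ _ (by simp), p1]
      · rw [Function.update_of_ne (by simp), hQ _ (by simp), p2]
      · rw [Function.update_self]
      · rw [Function.update_of_ne (by simpa using hw.symm), hQ _ (by simp), p4]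
    refine ⟨Sum.inr w₁, {Sum.inl m₁, Sum.inl m₂, Sum.inr w₂}, P, one (A := M) m₂ m₁, ?_, ?_, ?_, ?_, ?_⟩
    · simp [hw]
    · rw [Finset.card_eq_three]
      exact ⟨_, _, _, by simpa using hm, by simp, by simp, rfl⟩
    · rw [p3]; exact one_ne_two hm.symm
    · intro Q _ hQ
      rw [p3]
      change ¬ rankTwo m₂ m₁ ((F Q).ofW w₁) < rankTwo m₂ m₁
        ((F (Function.update Q (Sum.inr w₁) (one (A := M) m₂ m₁))).ofW w₁)
      rw [key Q hQ, rankTwo_first]; omega
    · refine ⟨P, rfl, fun _ _ => rfl, ?_⟩
      rw [p3]
      change rankTwo m₂ m₁ ((F (Function.update P (Sum.inr w₁) (one (A := M) m₂ m₁))).ofW w₁) <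
        rankTwo m₂ m₁ ((F P).ofW w₁)
      rw [key P (fun _ _ => rfl), hW, rankTwo_first, rankTwo_second hm.symm]; omega
  · -- `m₁` manipulates
    have key : ∀ Q : Profile M W, (∀ j ∈ ({Sum.inl m₂, Sum.inr w₁, Sum.inr w₂} : Finset (M ⊕ W)),
        Q j = P j) →
        (F (Function.update Q (Sum.inl m₁) (one (A := W) w₁ w₂))).ofM m₁ = some w₁ := by
      intro Q hQ
      apply truncM hm hw (hF _)
      · rw [Function.update_self]
      · rw [Function.update_of_ne (by simpa using hm.symm), hQ _ (by simp), p2]
      · rw [Function.update_of_ne (by simp), hQ _ (by simp), p3]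
      · rw [Function.update_of_ne (by simp), hQ _ (by simp), p4]
    refine ⟨Sum.inl m₁, {Sum.inl m₂, Sum.inr w₁, Sum.inr w₂}, P, one (A := W) w₁ w₂, ?_, ?_, ?_, ?_, ?_⟩
    · simp [hm]
    · rw [Finset.card_eq_three]
      exact ⟨_, _, _, by simp, by simp, by simpa using hw, rfl⟩
    · rw [p1]; exact one_ne_two hw
    · intro Q _ hQ
      rw [p1]
      change ¬ rankTwo w₁ w₂ ((F Q).ofM m₁) < rankTwo w₁ w₂
        ((F (Function.update Q (Sum.inl m₁) (one (A := W) w₁ w₂))).ofM m₁)
      rw [key Q hQ, rankTwo_first]; omega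
    · refine ⟨P, rfl, fun _ _ => rfl, ?_⟩
      rw [p1]
      change rankTwo w₁ w₂ ((F (Function.update P (Sum.inl m₁) (one (A := W) w₁ w₂))).ofM m₁) <
        rankTwo w₁ w₂ ((F P).ofM m₁)
      rw [key P (fun _ _ => rfl), h, rankTwo_first, rankTwo_second hw]; omega

end Market

/-- The universal bound. -/
lemma ratDegree_le_three (M W : Type) [Finite M] [Finite W]
    (hM : 2 ≤ Nat.card M) (hW : 2 ≤ Nat.card W)
    (F : Mechanism M W) (hF : IsStableMechanism F) : ratDegree F ≤ 3 := by
  obtain ⟨m₁, m₂, hm⟩ := (Finite.one_lt_card_iff_nontrivial.mp (show 1 < Nat.card M by omega)).exists_pair_ne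
  obtain ⟨w₁, w₂, hw⟩ := (Finite.one_lt_card_iff_nontrivial.mp (show 1 < Nat.card W by omega)).exists_pair_ne
  apply Nat.sInf_le
  left
  exact ⟨by omega, manipulable hm hw F hF⟩

/-- Every stable matching mechanism on a market with at least two agents on each side has RAT-degree
at most `3`; hence no family of stable matching mechanisms has linear RAT-degree. -/
theorem result :
    (∀ (M W : Type) [Finite M] [Finite W], 2 ≤ Nat.card M → 2 ≤ Nat.card W →
      ∀ F : Mechanism M W, IsStableMechanism F → ratDegree F ≤ 3) ∧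
    ¬ ∃ F : ∀ (M W : Type) [Finite M] [Finite W], Mechanism M W,
      (∀ (M W : Type) [Finite M] [Finite W], IsStableMechanism (F M W)) ∧
      ∃ (c : ℝ) (n₀ : ℕ), 0 < c ∧
        ∀ (M W : Type) [Finite M] [Finite W], n₀ ≤ Nat.card M + Nat.card W →
          c * (Nat.card M + Nat.card W) ≤ ratDegree (F M W) := by
  refine ⟨fun M W _ _ hM hW F hF => ratDegree_le_three M W hM hW F hF, ?_⟩
  rintro ⟨F, hF, c, n₀, hc, h⟩
  obtain ⟨N, hN⟩ := exists_nat_gt (3 / c)
  have h1 := h (Fin (n₀ + N + 2)) (Fin (n₀ + N + 2)) (by simp; omega)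
  have h2 : ratDegree (F (Fin (n₀ + N + 2)) (Fin (n₀ + N + 2))) ≤ 3 :=
    ratDegree_le_three _ _ (by simp) (by simp) _ (hF _ _)
  have h3 : ((ratDegree (F (Fin (n₀ + N + 2)) (Fin (n₀ + N + 2))) : ℕ) : ℝ) ≤ 3 := by
    exact_mod_cast h2
  rw [div_lt_iff₀ hc] at hN
  simp only [Nat.card_eq_fintype_card, Fintype.card_fin] at h1
  push_cast at h1
  have h4 : c * N ≤ c * ((n₀ : ℝ) + N + 2 + (n₀ + N + 2)) := by
    apply mul_le_mul_of_nonneg_left _ hc.le
    have : (0 : ℝ) ≤ n₀ := Nat.cast_nonneg _
    have : (0 : ℝ) ≤ N := Nat.cast_nonneg _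
    linarith
  linarith

end Pool.Agent.Results.MP_35fdad_lc.NoLinearRatDegree
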